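import Pool.Agent.Helper8.UN.Stmts

set_option autoImplicit false

open Finset

namespace Pool.Agent.Helper8.UN

/-- excess mass of the uniform measure on `A` -/
noncomputable def kap_m (A B : Finset ℕ) (M : ℝ) (i : ℕ) : ℝ :=
  if i ∈ A then 1 / (A.card : ℝ) - (if i ∈ B then 1 / M else 0) else 0

theorem kap_nonneg (A B : Finset ℕ) (M : ℝ) (hA : A.Nonempty) (hM : (A.card : ℝ) ≤ M) (i : ℕ) :
    0 ≤ kap_m A B M i := by
  have hc : (0 : ℝ) < A.card := by exact_mod_cast hA.card_pos
  unfold kap_m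
  split_ifs with h1 h2
  · have : 1 / M ≤ 1 / (A.card : ℝ) := one_div_le_one_div_of_le hc hM
    linarith
  · have : 0 ≤ 1 / (A.card : ℝ) := by positivity
    linarith
  · exact le_refl _

theorem kap_sum (A B : Finset ℕ) (M : ℝ) (hA : A.Nonempty) :
    ∑ i ∈ A, kap_m A B M i = 1 - ((A ∩ B).card : ℝ) / M := by
  have hc : (0 : ℝ) < A.card := by exact_mod_cast hA.card_pos
  have h1 : ∀ i ∈ A, kap_m A B M i = 1 / (A.card : ℝ) - (if i ∈ B then 1 / M else 0) := by
    intro i hi
    unfold kap_m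
    rw [if_pos hi]
  rw [Finset.sum_congr rfl h1, Finset.sum_sub_distrib, Finset.sum_const, nsmul_eq_mul,
    ← Finset.sum_filter, Finset.sum_const, nsmul_eq_mul]
  have h2 : A.filter (fun i => i ∈ B) = A ∩ B := by
    ext i; simp [Finset.mem_inter]
  rw [h2]
  field_simp

theorem kap_marg (A B : Finset ℕ) (M t : ℝ) (hA : A.Nonempty) (hM : (A.card : ℝ) ≤ M)
    (ht : t = 1 - ((A ∩ B).card : ℝ) / M) (i : ℕ) (hi : i ∈ A) :
    (if i ∈ B then 1 / M else 0) + kap_m A B M i * (t / t) = 1 / (A.card : ℝ) := by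
  have h1 : kap_m A B M i = 1 / (A.card : ℝ) - (if i ∈ B then 1 / M else 0) := by
    unfold kap_m
    rw [if_pos hi]
  by_cases h0 : t = 0
  · have h2 := kap_sum A B M hA
    rw [← ht, h0] at h2
    rw [Finset.sum_eq_zero_iff_of_nonneg (fun j _ => kap_nonneg A B M hA hM j)] at h2
    have h3 := h2 i hi
    rw [h3, zero_mul, add_zero]
    linarith
  · rw [div_self h0, mul_one, h1]
    ring

theorem st_KAP : ST_KAP := by
  intro A B hA hB
  set M : ℝ := ((max A.card B.card : ℕ) : ℝ) with hM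
  have hMA : (A.card : ℝ) ≤ M := by rw [hM]; exact_mod_cast le_max_left _ _
  have hMB : (B.card : ℝ) ≤ M := by rw [hM]; exact_mod_cast le_max_right _ _
  have hM0 : 0 < M := lt_of_lt_of_le (by exact_mod_cast hA.card_pos) hMA
  set t : ℝ := 1 - ((A ∩ B).card : ℝ) / M with ht
  have htv : tv A B = t := rfl
  have htB : t = 1 - ((B ∩ A).card : ℝ) / M := by rw [ht, Finset.inter_comm]
  have hsA := kap_sum A B M hA
  have hsB := kap_sum B A M hB
  rw [← ht] at hsA
  rw [← htB] at hsB
  have ht0 : 0 ≤ t := by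
    rw [← hsA]
    exact Finset.sum_nonneg fun i _ => kap_nonneg A B M hA hMA i
  refine ⟨fun i j => (if i = j ∧ i ∈ A ∧ i ∈ B then 1 / M else 0) +
    kap_m A B M i * kap_m B A M j / t, ?_, ?_, ?_, ?_⟩
  · intro i j
    have h1 := kap_nonneg A B M hA hMA i
    have h2 := kap_nonneg B A M hB hMB j
    have h3 : (0 : ℝ) ≤ (if i = j ∧ i ∈ A ∧ i ∈ B then 1 / M else 0) := by
      split_ifs
      · positivity
      · exact le_refl _
    have h4 : 0 ≤ kap_m A B M i * kap_m B A M j / t := div_nonneg (mul_nonneg h1 h2) ht0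
    exact add_nonneg h3 h4
  · intro i hi
    rw [Finset.sum_add_distrib, ← Finset.sum_div, ← Finset.mul_sum, hsB, mul_div_assoc]
    have h1 : ∑ j ∈ B, (if i = j ∧ i ∈ A ∧ i ∈ B then 1 / M else 0) =
        (if i ∈ B then 1 / M else 0) := by
      have h2 : ∀ j ∈ B, (if i = j ∧ i ∈ A ∧ i ∈ B then 1 / M else 0) =
          (if i = j then 1 / M else 0) := by
        intro j hj
        by_cases h : i = j
        · subst h
          rw [if_pos ⟨rfl, hi, hj⟩, if_pos rfl]
        · rw [if_neg (fun h' => h h'.1), if_neg h]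
      rw [Finset.sum_congr rfl h2, Finset.sum_ite_eq]
    rw [h1]
    exact kap_marg A B M t hA hMA ht i hi
  · intro j hj
    rw [Finset.sum_add_distrib, ← Finset.sum_div, ← Finset.sum_mul, hsA, mul_comm t, mul_div_assoc]
    have h1 : ∑ i ∈ A, (if i = j ∧ i ∈ A ∧ i ∈ B then 1 / M else 0) =
        (if j ∈ A then 1 / M else 0) := by
      have h2 : ∀ i ∈ A, (if i = j ∧ i ∈ A ∧ i ∈ B then 1 / M else 0) =
          (if i = j then 1 / M else 0) := by
        intro i hi
        by_cases h : i = j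
        · subst h
          rw [if_pos ⟨rfl, hi, hj⟩, if_pos rfl]
        · rw [if_neg (fun h' => h h'.1), if_neg h]
      rw [Finset.sum_congr rfl h2, Finset.sum_ite_eq']
    rw [h1]
    exact kap_marg B A M t hB hMB htB j hj
  · rw [htv]
    have h1 : ∑ i ∈ A, ∑ j ∈ B, (if i = j then 0 else
        ((if i = j ∧ i ∈ A ∧ i ∈ B then 1 / M else 0) + kap_m A B M i * kap_m B A M j / t)) ≤
        ∑ i ∈ A, ∑ j ∈ B, kap_m A B M i * kap_m B A M j / t := by
      refine Finset.sum_le_sum fun i _ => Finset.sum_le_sum fun j _ => ?_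
      have h4 : 0 ≤ kap_m A B M i * kap_m B A M j / t :=
        div_nonneg (mul_nonneg (kap_nonneg A B M hA hMA i) (kap_nonneg B A M hB hMB j)) ht0
      by_cases h : i = j
      · rw [if_pos h]
        exact h4
      · rw [if_neg h, if_neg (fun h' => h h'.1), zero_add]
    refine le_trans h1 ?_
    have h2 : ∑ i ∈ A, ∑ j ∈ B, kap_m A B M i * kap_m B A M j / t = t * t / t := by
      have : ∀ i ∈ A, ∑ j ∈ B, kap_m A B M i * kap_m B A M j / t = kap_m A B M i * (t / t) := by
        intro i _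
        rw [← Finset.sum_div, ← Finset.mul_sum, hsB, mul_div_assoc]
      rw [Finset.sum_congr rfl this, ← Finset.sum_mul, hsA, mul_div_assoc]
    rw [h2]
    by_cases h0 : t = 0
    · rw [h0]; simp
    · rw [mul_div_assoc, div_self h0, mul_one]

end Pool.Agent.Helper8.UN
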